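import Pool.Agent.H58.BadA3

namespace Pool.Agent.Results.MP_f446af_nt.Exists
open Pool.Agent.H58.Bad

theorem result : ∃ (A : Matrix (Fin 2) (Fin 1) ℝ) (x : Tor 2) (φ : Tor 1 →+ Tor 2),
    Continuous φ ∧ Function.Injective φ ∧ ¬ Singular A ∧ MeasurableSet (Bad A) ∧
    0 < cosetMeasure x φ (Bad A) ∧ ¬ (Set.range (fun h => x + φ h) ⊆ Bad A) := by
  obtain ⟨A, x, φ, h1, h2, h3, h4, h5, -, h6⟩ := H58Bad.main
  exact ⟨A, x, φ, h1, h2, h3, h4, h5, h6⟩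

end Pool.Agent.Results.MP_f446af_nt.Exists
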